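import Pool.Agent.Work.MP_8da9ea_nt.FR.EndA

/-!
# The elliptico-toric inequality modulo finitely many poor subspaces
-/

set_option autoImplicit false

namespace Pool.Agent.Results.MP_8da9ea_nt.PoorSubspaces

open Pool.Agent.Work.MP_8da9ea_nt Pool.Agent.Work.MP_8da9ea_nt.FR
  Pool.Agent.Work.MP_8da9ea_nt.EB Pool.Agent.Work.MP_327059_nt.GL Pool.Agent.Work.MP_8da9ea_nt.S
  Pool.Agent.Work.MP_8da9ea_nt.EC

/-- There is a closure operator `cl`, from sets of complex numbers to subfields of `ℂ` (increasing,
monotone, idempotent, finitary, with countable values on countable sets), whose values are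
algebraically closed in `ℂ`, contain the field `B = K(ω₁, ω₂, η₁, η₂)` of the problem whenever they
contain its data `ω₁`, `ω₂`, `t`, `p`, and contain the `j`-invariant of a lattice if and only if they
contain `ω₂ / ω₁`, such that the following holds.

(I) Let `Q`, `N ≥ 5`, `s`, `n` be given, `M = N + (s + n)(2s + 3n) + 2`. There is `n₀` such that for EVERY
`ℚ`-subspace `X` of `ℂ` of finite dimension (spanned by `e_1, …, e_D`) there are FINITELY MANY pairs of
poor subspaces `U`, `U'` of `ℂ` such that ALL `u ∈ X^s`, `v ∈ X^n` have the following property for one of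
these pairs. Let `u_{σ(1)}, …, u_{σ(s₁)}` be a basis of the `u_i` over `ℚ` modulo `U` and
`v_{θ(1)}, …, v_{θ(n₁)}` a basis of the `v_j` over the field `k` of the lattice modulo `U'` (as in
`BasMod`; so `s₁ = s` and `n₁ = n` if the `u_i`, `v_j` are independent modulo `U`, `U'`). Let
`e = (s - s₁) + 2(n - n₁)` be the defect. Then we have:

* `GenR` (all lattices with `j` outside `F`; the subspaces `U` depend on `X` only; `e = s - s₁`): for every
  countable set `S`, `F = cl S`, every lattice with `j ∉ F`, all `t`, `p` and all `t₀ ∈ ℂ^d` such that the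
  elements of `F` in the span of `t` are in `ℚ u_1 + … + ℚ u_s + ℚ t₀_1 + … + ℚ t₀_d + 2πiℚ`: if there
  are `ρ` numbers algebraic over `B` and independent over `S` for the closure operator, then the
  transcendence degree of `B` is at least `dim ⟨t⟩ + 4 + 2 dim ⟨p⟩ + max 1 ρ - d - e`, so the inequality
  of the problem holds if `d + e ≤ max 1 ρ`.
* `AddR` (every lattice, all `t`, `p` such that the transcendence degree of `B(t, p)` is at most `N`; the
  subspaces depend on the lattice, `t`, `p` and `X`): the `v_{θ(j)}` are not in the lattice, and the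
  numbers `e^{u_{σ(i)}}`, `℘(v_{θ(j)})`, `ζ(v_{θ(j)})` are algebraically independent over
  `B(t, p)(u, v)`. So the transcendence degree of `B(t + u, p + v)` is at least that of `B(t, p)` plus
  `s + 2n - e`, and if the inequality of the problem holds for `t`, `p` with `e` added on the right, then
  it holds for `t + u`, `p + v`.
* `CloR` (every lattice; the subspaces depend on the lattice and `X`): for every countable set `S` such
  that `j ∈ F = cl S`, all `t`, `p`, `t₀ ∈ ℂ^d`, `p₀ ∈ ℂ^{d'}` such that the elements of `F` in the span of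
  `t` are in `ℚ u_1 + … + ℚ u_s + ℚ t₀_1 + … + ℚ t₀_d + 2πiℚ` and the elements of `ω₁ F` in the `k`-span of
  `p` are in `k v_1 + … + k v_n + k p₀_1 + … + k p₀_{d'} + ℚ ω₁ + ℚ ω₂`: the transcendence degree of `B` is
  at least `dim ⟨t⟩ + 2 + 2 dim ⟨p⟩ + R - d - 2d' - e`, where `R` is the maximum of `ρ` as above and of the
  minimum of `1` and the dimension of `t` plus twice the dimension of `p / ω₁` modulo `F`. So the
  inequality of the problem holds for every lattice with complex multiplication if `d + 2d' + e ≤ R`, in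
  particular always for `d = d' = e = 0`, and for the other lattices if `d + 2d' + e + 2 ≤ R`.

Poor means: the values of `e^z` (for `U'` those of `ω₁² ℘(z)`) on the subspace generate a field of
transcendence degree less than `M - 1`, and the subspace contains no rich subspace. Rich means: nonzero
and stable under the multiplication by a number field of degree at least `n₀`, or containing the
products `a_l x_i` of `M` numbers `a_l` of finite type `Q` and `n₀` numbers `x_i`, both linearly
independent over `ℚ` (for `U'` with the condition `CondE`, which is that the `a_l` are independent over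
`k` if `j` is algebraic). So for a rich space `X`, for example `X = L z` with `z ≠ 0` and a number field
`L` of degree at least `n₀`, none of the poor subspaces contains `X`.

(II) If the `e_a` are linearly independent and `X` is rich (with `m ≥ n₀ + κ M'` instead of `n₀`,
`M' = N + 2s + 3n + 2` instead of `M`), then for all polynomials `R_1, …, R_s`, `V_1, …, V_n` with complex
coefficients the same conclusions hold with `e = 0` (`GenQ`, `AddQ`, `CloQ`) for `u_j = R_j(z)`,
`v_j = V_j(z)` at all points `z ∈ X^q` with coordinates outside a closed set of codimension greater than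
`κ` at which the gradients of the `R_j` are independent over `ℚ` and those of the `V_j` over `k`.

(III) For polynomials of degree at most `Δ` without nontrivial constant combinations, and `X` of
dimension at least a number depending on `s` and `Δ` only, these gradients are independent at all
points of `X^q` with coordinates outside a proper closed set. -/
theorem result :
    ∃ cl : Set ℂ → IntermediateField ℚ ℂ,
      (∀ S : Set ℂ, S ⊆ cl S) ∧ (∀ S T : Set ℂ, S ⊆ cl T → cl S ≤ cl T) ∧
      (∀ S x, x ∈ cl S → ∃ T : Finset ℂ, (T : Set ℂ) ⊆ S ∧ x ∈ cl (T : Set ℂ)) ∧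
      (∀ S, S.Countable → (cl S : Set ℂ).Countable) ∧
      (∀ S x, IsAlgebraic (cl S) x → x ∈ cl S) ∧
      (∀ S, ∀ ω₁ ∈ cl S, ∀ ω₂ ∈ cl S, ∀ (s n : ℕ) (t : Fin s → ℂ) (p : Fin n → ℂ),
        (∀ l, t l ∈ cl S) → (∀ i, p i ∈ cl S) → bigField ω₁ ω₂ t p ≤ cl S) ∧
      (∀ S ω₁ ω₂, (ω₂ / ω₁).im ≠ 0 → (jInv ω₁ ω₂ ∈ cl S ↔ ω₂ / ω₁ ∈ cl S)) ∧
      (∀ Q N s n : ℕ, 5 ≤ N → ∃ n₀ : ℕ, ∀ (D : ℕ) (e : Fin D → ℂ),
        -- (I) all tuples, modulo one of finitely many poor subspaces
        ((∃ (m : ℕ) (U : Fin m → Submodule ℚ ℂ),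
            (∀ k, PoorT Q (N + (s + n) * (2 * s + 3 * n) + 2) n₀
              (N + (s + n) * (2 * s + 3 * n) + 1) (U k)) ∧
            ∀ u : Fin s → ℂ, (∀ j, u j ∈ Submodule.span ℚ (Set.range e)) →
              ∃ (k : Fin m) (s₁ : ℕ) (σ : Fin s₁ → Fin s),
                BasMod (Set.range ((↑) : ℚ → ℂ)) u σ (U k) ∧ GenR cl u s₁) ∧
          ∀ ω₁ ω₂ : ℂ, (ω₂ / ω₁).im ≠ 0 →
            (∀ (s' k' : ℕ) (t : Fin s' → ℂ) (p : Fin k' → ℂ),
              ¬ HasTrdeg (bigField ω₁ ω₂ t p) (N + 1) →
              ∃ (m : ℕ) (U U' : Fin m → Submodule ℚ ℂ),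
                (∀ k, PoorT Q (N + (s + n) * (2 * s + 3 * n) + 2) n₀
                    (N + (s + n) * (2 * s + 3 * n) + 1) (U k) ∧
                  PoorE Q (N + (s + n) * (2 * s + 3 * n) + 2) n₀
                    (N + (s + n) * (2 * s + 3 * n) + 1) ω₁ ω₂ (U' k)) ∧
                ∀ (u : Fin s → ℂ) (v : Fin n → ℂ),
                  (∀ j, u j ∈ Submodule.span ℚ (Set.range e)) →
                  (∀ j, v j ∈ Submodule.span ℚ (Set.range e)) →
                  ∃ (k : Fin m) (s₁ n₁ : ℕ) (σ : Fin s₁ → Fin s) (θ : Fin n₁ → Fin n),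
                    BasMod (Set.range ((↑) : ℚ → ℂ)) u σ (U k) ∧
                    BasMod {g | InK ω₁ ω₂ g} v θ (U' k) ∧ AddR ω₁ ω₂ t p u v σ θ) ∧
            ∃ (m : ℕ) (U U' : Fin m → Submodule ℚ ℂ),
              (∀ k, PoorT Q (N + (s + n) * (2 * s + 3 * n) + 2) n₀
                  (N + (s + n) * (2 * s + 3 * n) + 1) (U k) ∧
                PoorE Q (N + (s + n) * (2 * s + 3 * n) + 2) n₀
                  (N + (s + n) * (2 * s + 3 * n) + 1) ω₁ ω₂ (U' k)) ∧
              ∀ (u : Fin s → ℂ) (v : Fin n → ℂ),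
                (∀ j, u j ∈ Submodule.span ℚ (Set.range e)) →
                (∀ j, v j ∈ Submodule.span ℚ (Set.range e)) →
                ∃ (k : Fin m) (s₁ n₁ : ℕ) (σ : Fin s₁ → Fin s) (θ : Fin n₁ → Fin n),
                  BasMod (Set.range ((↑) : ℚ → ℂ)) u σ (U k) ∧
                  BasMod {g | InK ω₁ ω₂ g} v θ (U' k) ∧ CloR cl ω₁ ω₂ u v s₁ n₁) ∧
        -- (II) families of polynomials on rich spaces
        (LinearIndependent ℚ e → ∀ κ m : ℕ, n₀ + κ * (N + 2 * s + 3 * n + 2) ≤ m →
          ∀ (q : ℕ) (R : Fin s → MvPolynomial (Fin q) ℂ),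
            (RichS Q (N + 2 * s + 3 * n + 2) m (Submodule.span ℚ (Set.range e))
                (fun _ _ => True) →
              AllBut κ e q fun z => GradInd (Set.range ((↑) : ℚ → ℂ)) R z →
                GenQ cl fun j => MvPolynomial.eval z (R j)) ∧
            ∀ ω₁ ω₂ : ℂ, (ω₂ / ω₁).im ≠ 0 →
              RichS Q (N + 2 * s + 3 * n + 2) m (Submodule.span ℚ (Set.range e))
                (fun a x => 0 < n → CondE Q ω₁ ω₂ a x) →
              ∀ V : Fin n → MvPolynomial (Fin q) ℂ,
              (∀ (s' k : ℕ) (t : Fin s' → ℂ) (p : Fin k → ℂ),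
                ¬ HasTrdeg (bigField ω₁ ω₂ t p) (N + 1) →
                AllBut κ e q fun z => GradInd (Set.range ((↑) : ℚ → ℂ)) R z →
                  GradInd {g | InK ω₁ ω₂ g} V z → AddQ ω₁ ω₂ t p
                    (fun j => MvPolynomial.eval z (R j)) fun j => MvPolynomial.eval z (V j)) ∧
              AllBut κ e q fun z => GradInd (Set.range ((↑) : ℚ → ℂ)) R z →
                GradInd {g | InK ω₁ ω₂ g} V z → CloQ cl ω₁ ω₂
                  (fun j => MvPolynomial.eval z (R j)) fun j => MvPolynomial.eval z (V j))) ∧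
      -- (III) nondegenerate points
      ∀ s Δ : ℕ, ∃ n₀ : ℕ, ∀ D : ℕ, n₀ ≤ D → ∀ e : Fin D → ℂ, LinearIndependent ℚ e →
        ∀ (q : ℕ) (R : Fin s → MvPolynomial (Fin q) ℂ), (∀ j, (R j).totalDegree ≤ Δ) →
        (NoConst (Set.range ((↑) : ℚ → ℂ)) R →
          AllBut 0 e q (GradInd (Set.range ((↑) : ℚ → ℂ)) R)) ∧
        ∀ ω₁ ω₂ : ℂ, (ω₂ / ω₁).im ≠ 0 → NoConst {g | InK ω₁ ω₂ g} R →
          AllBut 0 e q (GradInd {g | InK ω₁ ω₂ g} R) :=
  mainG x_FKI NoSmallC_pf x_NoSmallCV x_FRKAu x_FRKVu SLIex_pf x_IndV Dec_pf x_NDex NDform_pf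
    x_LamAddK x_LamMulK x_LamZeroK

end Pool.Agent.Results.MP_8da9ea_nt.PoorSubspaces
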